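import Pool.Agent.Helper310.Contra2.Main
import Pool.Agent.Helper310.Contra2.Sign

/-!
# Necessary conditions for contra pairs on permutation graphs

`G`, `M`, `C₁`, `C₂` are as in Q1 of MP_a46c6f_co, the weight is `2` on `M` and `1` on `C₁ ∪ C₂`,
both circuits have length `n`, and `π` is the permutation of the permutation graph `G`.  If
`(G, w)` has no faithful circuit cover, then the alternating cycle sum
`∑_{U ⊆ M} 2 ^ |U| (-2) ^ c(U)` vanishes, where `c(U)` is the number of closed curves obtained
from `C₁ ∪ C₂` by crossing over at the members of `U`.  In particular `n ≡ 1 (mod 4)`, the number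
of triples of members of `M` met in the same cyclic order by `C₁` and `C₂` is
`≡ (n - 1) / 4 (mod 4)`, and `sign π = (-1) ^ ((n - 1) / 4)`.
-/

set_option autoImplicit false

namespace Pool.Agent.Results.MP_a46c6f_co.ContraConditions

open Contra2

/-- Let `G` be a finite cubic graph with a perfect matching `M` such that `G - M` is the union of
two vertex-disjoint chordless circuits `C₁`, `C₂`.  Then `G` has a labelling, and for every
labelling, with permutation `π` of `Fin n`, if `(G, w)` has no faithful circuit cover (`w = 2` on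
`M`, `w = 1` elsewhere), then the alternating cycle sum of `π` is zero; in particular
`n ≡ 1 (mod 4)`, the sign of `π` is `(-1) ^ ((n - 1) / 4)` and the number of even triples of `π` is
`≡ (n - 1) / 4 (mod 4)`. -/
theorem result {W : Type*} [Finite W] (G : SimpleGraph W) (M C₁ C₂ : G.Subgraph)
    (h : IsPermutationGraph G M C₁ C₂) :
    (∃ (n : ℕ) (_ : NeZero n) (x y : Fin n → W) (π : Equiv.Perm (Fin n)),
      IsLabelling M C₁ C₂ x y π) ∧
    ∀ (n : ℕ) (_ : NeZero n) (x y : Fin n → W) (π : Equiv.Perm (Fin n)),
      IsLabelling M C₁ C₂ x y π → ¬ HasFaithfulCircuitCover G (weight M) →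
        altCycleSum (sigma π) = 0 ∧ n % 4 = 1 ∧ Equiv.Perm.sign π = (-1) ^ (n / 4) ∧
          evenTriples π % 4 = (n / 4) % 4 := by
  refine ⟨exists_labelling M C₁ C₂ h, fun n _ x y π hlab hno => ?_⟩
  obtain ⟨h1, h2, h3⟩ := contra_conditions M C₁ C₂ h x y π hlab hno
  refine ⟨h3, h1, ?_, h2⟩
  rw [sign_eq π h1]
  rcases Nat.even_or_odd (evenTriples π) with h4 | h4
  · rw [h4.neg_one_pow, Even.neg_one_pow]
    obtain ⟨a, ha⟩ := h4
    exact ⟨(n / 4) / 2, by omega⟩
  · rw [h4.neg_one_pow, Odd.neg_one_pow]
    obtain ⟨a, ha⟩ := h4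
    exact ⟨(n / 4) / 2, by omega⟩

end Pool.Agent.Results.MP_a46c6f_co.ContraConditions
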