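import Pool.Agent.Helper310.Contra.Main

/-!
# Contra pairs on permutation graphs have `|V| ≡ 2 (mod 8)`

For `G`, `M`, `C₁`, `C₂` as in Q1 of MP_a46c6f_co and the weight `w` that is `2` on `M` and `1` on
`C₁ ∪ C₂`, the pair `(G, w)` has a faithful circuit cover unless `|V(G)| ≡ 2 (mod 8)`, i.e. unless
the two circuits have length `≡ 1 (mod 4)`.
-/

set_option autoImplicit false

namespace Pool.Agent.Results.MP_a46c6f_co.NotTwoModEight

open Contra

/-- Let `G` be a finite cubic graph with a perfect matching `M` such that `G - M` is the union of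
two vertex-disjoint chordless circuits `C₁`, `C₂`. If `|V(G)|` is not `≡ 2 (mod 8)`, then
`(G, w)`, with `w = 2` on `M` and `w = 1` elsewhere, has a faithful circuit cover. -/
theorem result {W : Type*} [Finite W] (G : SimpleGraph W) (M C₁ C₂ : G.Subgraph)
    (h : IsPermutationGraph G M C₁ C₂) (hn : Nat.card W % 8 ≠ 2) :
    HasFaithfulCircuitCover G (weight M) :=
  cover_of_card M C₁ C₂ h hn

end Pool.Agent.Results.MP_a46c6f_co.NotTwoModEight
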